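import Pool.Agent.N926.F37.C

/-! linear extrapolation modulo `p^2` with general slopes -/

set_option autoImplicit false
set_option linter.unusedVariables false
set_option linter.unusedSectionVars false

namespace Pool.Agent.N926.Gen

open Finset Pool.Agent.N926.Sup2 Pool.Agent.N926.Sup Pool.Agent.N926.F54 Pool.Agent.N926.F37

/-- `b ≡ a + s p l`, `c ≡ a + t p l` modulo `p^2` -/
def Qs (p : ℕ) (s t : ℚ) (a b c : ℚ) : Prop := ∃ l : ℚ, Dv p 0 l ∧ Dv p 0 a ∧ Dv p 2 (b - a - s*p*l) ∧ Dv p 2 (c - a - t*p*l)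

section
variable {p : ℕ} [hp : Fact p.Prime] {s t : ℚ}

theorem Qs.const {u : ℚ} (hu : Dv p 0 u) : Qs p s t u u u := ⟨0, Dv.zero _, hu, by simpa using Dv.zero _, by simpa using Dv.zero _⟩

theorem Qs.aff {u v b c : ℚ} (hu : Dv p 0 u) (hv : Dv p 0 v) (hb : Dv p 2 (b - (u + s*p*v))) (hc : Dv p 2 (c - (u + t*p*v))) : Qs p s t u b c :=
  ⟨v, hv, hu, Dv_eq (by ring) hb, Dv_eq (by ring) hc⟩

variable (hs : Dv p 0 s) (ht : Dv p 0 t)
include hs ht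

theorem Qs.b0 {a b c : ℚ} (h : Qs p s t a b c) : Dv p 0 b ∧ Dv p 0 c := by
  obtain ⟨l, hl, ha, hb, hc⟩ := h
  constructor
  · have := ((hb.mono (by norm_num : (0:ℤ) ≤ 2)).add ha).add ((hs.mul0 dp0).mul0 hl)
    exact Dv_eq (by ring) this
  · have := ((hc.mono (by norm_num : (0:ℤ) ≤ 2)).add ha).add ((ht.mul0 dp0).mul0 hl)
    exact Dv_eq (by ring) this

theorem Qs.mul {a b c a' b' c' : ℚ} (h : Qs p s t a b c) (g : Qs p s t a' b' c') : Qs p s t (a*a') (b*b') (c*c') := by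
  obtain ⟨hb0, hc0⟩ := h.b0 hs ht
  obtain ⟨l, hl, ha, hb, hc⟩ := h
  obtain ⟨l', hl', ha', hb', hc'⟩ := g
  refine ⟨a*l'+a'*l, (ha.mul0 hl').add (ha'.mul0 hl), ha.mul0 ha', ?_, ?_⟩
  · have k1 := hb'.mul0 hb0
    have k2 := hb.mul0 (ha'.add ((hs.mul0 dp0).mul0 hl'))
    have k3 : Dv p 2 ((p:ℚ)^2 * ((s*s)*(l*l'))) := (Dv.p_pow 2).mul0 ((hs.mul0 hs).mul0 (hl.mul0 hl'))
    refine Dv_eq ?_ ((k1.add k2).add k3)
    ring
  · have k1 := hc'.mul0 hc0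
    have k2 := hc.mul0 (ha'.add ((ht.mul0 dp0).mul0 hl'))
    have k3 : Dv p 2 ((p:ℚ)^2 * ((t*t)*(l*l'))) := (Dv.p_pow 2).mul0 ((ht.mul0 ht).mul0 (hl.mul0 hl'))
    refine Dv_eq ?_ ((k1.add k2).add k3)
    ring

omit hs ht in
theorem Qs.add {a b c a' b' c' : ℚ} (h : Qs p s t a b c) (g : Qs p s t a' b' c') : Qs p s t (a+a') (b+b') (c+c') := by
  obtain ⟨l, hl, ha, hb, hc⟩ := h
  obtain ⟨l', hl', ha', hb', hc'⟩ := g
  refine ⟨l+l', hl.add hl', ha.add ha', Dv_eq (by ring) (hb.add hb'), Dv_eq (by ring) (hc.add hc')⟩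

omit hs ht in
theorem Qs.sum {ι : Type*} (S : Finset ι) (f g k : ι → ℚ) (h : ∀ i ∈ S, Qs p s t (f i) (g i) (k i)) :
    Qs p s t (∑ i ∈ S, f i) (∑ i ∈ S, g i) (∑ i ∈ S, k i) := by
  classical
  induction S using Finset.induction_on with
  | empty => simpa using Qs.const (s := s) (t := t) (Dv.zero (p := p) 0)
  | insert a S ha ih =>
    rw [sum_insert ha, sum_insert ha, sum_insert ha]
    exact (h a (mem_insert_self _ _)).add (ih fun i hi => h i (mem_insert_of_mem hi))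

theorem Qs.prod {ι : Type*} (S : Finset ι) (f g k : ι → ℚ) (h : ∀ i ∈ S, Qs p s t (f i) (g i) (k i)) :
    Qs p s t (∏ i ∈ S, f i) (∏ i ∈ S, g i) (∏ i ∈ S, k i) := by
  classical
  induction S using Finset.induction_on with
  | empty => simpa using Qs.const (s := s) (t := t) (Dv.one (p := p))
  | insert a S ha ih =>
    rw [prod_insert ha, prod_insert ha, prod_insert ha]
    exact Qs.mul hs ht (h a (mem_insert_self _ _)) (ih fun i hi => h i (mem_insert_of_mem hi))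

theorem Qs.unit {a b c : ℚ} (h : Qs p s t a b c) (ha0 : a ≠ 0) (ha : padicValRat p a = 0) :
    (b ≠ 0 ∧ padicValRat p b = 0) ∧ (c ≠ 0 ∧ padicValRat p c = 0) := by
  obtain ⟨l, hl, ha', hb, hc⟩ := h
  constructor
  · refine unit_of_cong (y := a) ?_ ha0 ha
    exact Dv_eq (by ring) ((hb.mono (by norm_num : (1:ℤ) ≤ 2)).add ((hs.mul0' (Dv.p1 (p := p))).mul0 hl))
  · refine unit_of_cong (y := a) ?_ ha0 ha
    exact Dv_eq (by ring) ((hc.mono (by norm_num : (1:ℤ) ≤ 2)).add ((ht.mul0' (Dv.p1 (p := p))).mul0 hl))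

theorem Qs.inv {a b c : ℚ} (h : Qs p s t a b c) (ha0 : a ≠ 0) (ha : padicValRat p a = 0) : Qs p s t a⁻¹ b⁻¹ c⁻¹ := by
  obtain ⟨⟨b0, vb⟩, ⟨c0, vc⟩⟩ := h.unit hs ht ha0 ha
  obtain ⟨l, hl, ha', hb, hc⟩ := h
  have ia := inv_unit ha0 ha
  have ib := inv_unit b0 vb
  have ic := inv_unit c0 vc
  refine ⟨-l*a⁻¹*a⁻¹, (hl.neg.mul0 ia).mul0 ia, ia, ?_, ?_⟩
  · have k1 : Dv p 2 ((b - a - s*p*l) * (s*p*l - a)) := hb.mul0 (((hs.mul0 dp0).mul0 hl).sub ha')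
    have k2 : Dv p 2 ((p:ℚ)^2 * ((s*s)*(l*l))) := (Dv.p_pow 2).mul0 ((hs.mul0 hs).mul0 (hl.mul0 hl))
    have k3 := ((k1.add k2).mul0 (ia.mul0 (ia.mul0 ib)))
    refine Dv_eq ?_ k3
    field_simp
    ring
  · have k1 : Dv p 2 ((c - a - t*p*l) * (t*p*l - a)) := hc.mul0 (((ht.mul0 dp0).mul0 hl).sub ha')
    have k2 : Dv p 2 ((p:ℚ)^2 * ((t*t)*(l*l))) := (Dv.p_pow 2).mul0 ((ht.mul0 ht).mul0 (hl.mul0 hl))
    have k3 := ((k1.add k2).mul0 (ia.mul0 (ia.mul0 ic)))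
    refine Dv_eq ?_ k3
    field_simp
    ring

theorem Qs.final {a b c : ℚ} (h : Qs p s t a b c) : Dv p 2 (t*b - s*c - (t-s)*a) := by
  obtain ⟨l, hl, ha, hb, hc⟩ := h
  have := (ht.mul0' hb).sub (hs.mul0' hc)
  refine Dv_eq ?_ this
  ring

/-- the differences are divisible by `p` -/
theorem Qs.one {a b c : ℚ} (h : Qs p s t a b c) : Dv p 1 (b - a) ∧ Dv p 1 (c - a) := by
  obtain ⟨l, hl, ha, hb, hc⟩ := h
  constructor
  · exact Dv_eq (by ring) ((hb.mono (by norm_num : (1:ℤ) ≤ 2)).add ((hs.mul0' (Dv.p1 (p := p))).mul0 hl))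
  · exact Dv_eq (by ring) ((hc.mono (by norm_num : (1:ℤ) ≤ 2)).add ((ht.mul0' (Dv.p1 (p := p))).mul0 hl))

end

end Pool.Agent.N926.Gen
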